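import Pool.Agent.Y808.LB.Stm
import Pool.Agent.H40.BP.Asm
import Pool.Agent.H40.BP.R2
import Pool.Agent.H94R2.BQ.G
import Pool.Agent.H918R2.Quad.Reg1

/-! Projective modules over polynomial rings over regular local rings of dimension at most two
(job LB-DIM2, for helper808). -/

set_option autoImplicit false

open IsLocalRing BQ Pool.Agent.H40.BP Pool.Agent.Y808.LB

namespace Pool.Agent.Y978.LB

theorem t_DIM2 : S_DIM2 := by
  classical
  intro R _ _ hdim m
  have hdom : IsDomain R := Pool.Agent.H918R2.Quad.regular_isDomain R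
  have hreg : ((maximalIdeal R).spanFinrank : WithBot ℕ∞) = ringKrullDim R :=
    IsRegularLocalRing.spanFinrank_maximalIdeal
  have hfg : (maximalIdeal R).FG := IsNoetherian.noetherian _
  have hk : (maximalIdeal R).spanFinrank ≤ 2 := by
    rw [← hreg] at hdim
    exact_mod_cast hdim
  rcases Nat.lt_or_ge (maximalIdeal R).spanFinrank 2 with h | h
  · have hpr : (maximalIdeal R).IsPrincipal := by
      obtain ⟨s, hscard, hsspan⟩ := Submodule.FG.exists_span_finset_card_eq_spanFinrank hfg
      have hs1 : s.card ≤ 1 := by omega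
      rw [Finset.card_le_one_iff_subset_singleton] at hs1
      obtain ⟨x, hx⟩ := hs1
      rcases Finset.subset_singleton_iff.1 hx with h0 | h0
      · rw [← hsspan, h0]
        simpa using bot_isPrincipal
      · rw [← hsspan, h0]
        exact ⟨x, by simp⟩
    have hpir : IsPrincipalIdealRing R :=
      ((tfae_of_isNoetherianRing_of_isLocalRing_of_isDomain R).out 4 0).1 hpr
    exact quillen_suslin m R
  · have h2 : ringKrullDim R = 2 := by
      rw [← hreg, le_antisymm hk h]
      rfl
    obtain ⟨_, x, y, hxy, hx⟩ := t_R2 R h2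
    exact c_BQ2 R x y hxy hx m

end Pool.Agent.Y978.LB
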